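import Mathlib
import Pool.Agent.Helper36.TraceBound

set_option autoImplicit false

open scoped ENNReal
open MeasureTheory

universe u

namespace Pool.Agent.Results.MP_46efc5_an.NotNormed

/-! ### Banach spaces and operators -/

/-- A Banach space over `𝕂`. -/
structure Ban (𝕂 : Type) [RCLike 𝕂] : Type (u + 1) where
  /-- the underlying set -/
  E : Type u
  [grp : NormedAddCommGroup E]
  [mod : NormedSpace 𝕂 E]
  [cpl : CompleteSpace E]

attribute [instance] Ban.grp Ban.mod Ban.cpl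

/-- A Hilbert space over `𝕂`. -/
structure Hilb (𝕂 : Type) [RCLike 𝕂] : Type (u + 1) where
  /-- the underlying set -/
  E : Type u
  [grp : NormedAddCommGroup E]
  [inn : InnerProductSpace 𝕂 E]
  [cpl : CompleteSpace E]

attribute [instance] Hilb.grp Hilb.inn Hilb.cpl

section Defs

variable {𝕂 : Type} [RCLike 𝕂]

/-- A Hilbert space, regarded as a Banach space. -/
def Hilb.toBan (H : Hilb.{u} 𝕂) : Ban.{u} 𝕂 := ⟨H.E⟩

/-- Bounded (continuous) linear operators `X → Y`. -/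
abbrev Op (X Y : Ban.{u} 𝕂) : Type u := X.E →L[𝕂] Y.E

/-- The operator norm, as an element of `[0,∞]`. -/
noncomputable def opNorm {X Y : Ban.{u} 𝕂} (T : Op X Y) : ℝ≥0∞ := ‖T‖ₑ

/-- The composition `R S` of operators. -/
def mul {X Y Z : Ban.{u} 𝕂} (R : Op Y Z) (S : Op X Y) : Op X Z := ContinuousLinearMap.comp R S

/-- The dual space `X'`. -/
noncomputable def Ban.dual (X : Ban.{u} 𝕂) : Ban 𝕂 := ⟨StrongDual 𝕂 X.E⟩

/-- The canonical embedding `j_Y : Y → Y''`. -/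
noncomputable def canEmb (Y : Ban.{u} 𝕂) : Op Y Y.dual.dual :=
  NormedSpace.inclusionInDoubleDual 𝕂 Y.E

/-- The operator `x' ⊗ y : x ↦ x'(x) y` of rank (at most) one. -/
noncomputable def rankOne {X Y : Ban.{u} 𝕂} (f : X.dual.E) (y : Y.E) : Op X Y :=
  ContinuousLinearMap.smulRight f y

/-- The trace of an endomorphism of a finite-dimensional vector space. -/
noncomputable def linTrace {K V : Type*} [Field K] [AddCommGroup V] [Module K V]
    (f : V →ₗ[K] V) : K := LinearMap.trace K V f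

/-- The absolute value `|tr(T)|` of the trace of an operator `T : X → X`, `X` finite-dimensional. -/
noncomputable def absTrace {X : Ban.{u} 𝕂} (T : Op X X) : ℝ≥0∞ := ‖linTrace T.toLinearMap‖ₑ

/-! ### Subspaces and quotients -/

/-- A finite-dimensional subspace `M` of `X`. -/
structure FinSub (X : Ban.{u} 𝕂) : Type u where
  /-- the subspace -/
  M : Submodule 𝕂 X.E
  [fin : FiniteDimensional 𝕂 M]

attribute [instance] FinSub.fin

/-- A finite-dimensional subspace `M` of `X`, as a Banach space. -/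
def FinSub.space {X : Ban.{u} 𝕂} (M : FinSub X) : Ban.{u} 𝕂 :=
  { E := M.M, cpl := FiniteDimensional.complete 𝕂 M.M }

/-- The inclusion map `J_M : M → X`. -/
def FinSub.incl {X : Ban.{u} 𝕂} (M : FinSub X) : Op M.space X := M.M.subtypeL

/-- A closed subspace `L` of finite codimension in `Y`. -/
structure CofinSub (Y : Ban.{u} 𝕂) : Type u where
  /-- the subspace -/
  L : Submodule 𝕂 Y.E
  [closed : IsClosed (L : Set Y.E)]
  [fin : FiniteDimensional 𝕂 (Y.E ⧸ L)]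

attribute [instance] CofinSub.closed CofinSub.fin

/-- The quotient space `Y / L` as a Banach space. -/
noncomputable def CofinSub.space {Y : Ban.{u} 𝕂} (L : CofinSub Y) : Ban.{u} 𝕂 := ⟨Y.E ⧸ L.L⟩

/-- The quotient map `Q_L : Y → Y / L`. -/
noncomputable def CofinSub.quot {Y : Ban.{u} 𝕂} (L : CofinSub Y) : Op Y L.space := L.L.mkQL

end Defs

/-- The space `L_p(μ)` of `𝕂`-valued functions on a measure space. -/
noncomputable def lpSpace (𝕂 : Type) [RCLike 𝕂] (p : ℝ≥0∞) [Fact (1 ≤ p)] {Ω : Type u}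
    [MeasurableSpace Ω] (μ : Measure Ω) : Ban.{u} 𝕂 := ⟨Lp 𝕂 p μ⟩

/-! ### Operator ideals -/

/-- An assignment of a value in `[0,∞]` to every bounded operator between Banach spaces. -/
abbrev IdealFun (𝕂 : Type) [RCLike 𝕂] : Type (u + 1) := ∀ X Y : Ban.{u} 𝕂, Op X Y → ℝ≥0∞

/-- `(𝔏₂, 𝐋₂)`: the infimum of `‖R‖ ‖S‖` over all factorisations `T = R S` through a Hilbert
space `H`. -/
noncomputable def hilbertFactor (𝕂 : Type) [RCLike 𝕂] : IdealFun.{u} 𝕂 := fun X Y T =>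
  ⨅ (H : Hilb.{u} 𝕂) (S : Op X H.toBan) (R : Op H.toBan Y) (_ : T = mul R S),
    opNorm R * opNorm S

/-- `(𝔏_p, 𝐋_p)` (used for `p = 1` and `p = ∞`): the infimum of `‖R‖ ‖S‖` over all factorisations
`j_Y T = R S` with `S : X → L_p(μ)` and `R : L_p(μ) → Y''`, where `j_Y : Y → Y''` is the canonical
embedding into the bidual and `μ` is any measure. -/
noncomputable def lpFactor (𝕂 : Type) [RCLike 𝕂] (p : ℝ≥0∞) [Fact (1 ≤ p)] : IdealFun.{u} 𝕂 :=
  fun X Y T => ⨅ (Ω : Type u) (_ : MeasurableSpace Ω) (μ : Measure Ω)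
    (S : Op X (lpSpace 𝕂 p μ)) (R : Op (lpSpace 𝕂 p μ) Y.dual.dual)
    (_ : mul (canEmb Y) T = mul R S), opNorm R * opNorm S

/-- The product ideal `𝔄 ∘ 𝔅` with its quasi-norm: the infimum of `𝐀(A) 𝐁(B)` over all
factorisations `T = A B` with `B ∈ 𝔅(X,Z)`, `A ∈ 𝔄(Z,Y)` and `Z` a Banach space. -/
noncomputable def idealProd {𝕂 : Type} [RCLike 𝕂] (α β : IdealFun.{u} 𝕂) : IdealFun.{u} 𝕂 :=
  fun X Y T => ⨅ (Z : Ban.{u} 𝕂) (A : Op Z Y) (B : Op X Z) (_ : T = mul A B)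
    (_ : α Z Y A < ∞) (_ : β X Z B < ∞), α Z Y A * β X Z B

/-- The adjoint ideal: `𝐀^*(T)` is the supremum of `|tr(Q_L T J_M S)|` over all finite-dimensional
subspaces `M` of `X`, all closed subspaces `L` of `Y` of finite codimension and all operators
`S : Y/L → M` with `𝐀(S) ≤ 1`. -/
noncomputable def adjointIdeal {𝕂 : Type} [RCLike 𝕂] (α : IdealFun.{u} 𝕂) : IdealFun.{u} 𝕂 :=
  fun X Y T => ⨆ (M : FinSub X) (L : CofinSub Y) (S : Op L.space M.space)
    (_ : α L.space M.space S ≤ 1), absTrace (mul L.quot (mul T (mul M.incl S)))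

/-- `N(T) = 0` if and only if `T = 0`. -/
def IsDefinite {𝕂 : Type} [RCLike 𝕂] (N : IdealFun.{u} 𝕂) : Prop :=
  ∀ (X Y : Ban.{u} 𝕂) (T : Op X Y), N X Y T = 0 ↔ T = 0

/-- `N(c T) = |c| N(T)`. -/
def IsHomogeneous {𝕂 : Type} [RCLike 𝕂] (N : IdealFun.{u} 𝕂) : Prop :=
  ∀ (X Y : Ban.{u} 𝕂) (c : 𝕂) (T : Op X Y), N X Y (c • T) = ‖c‖ₑ * N X Y T

/-- `N(S + T) ≤ N(S) + N(T)`. -/
def IsSubadditive {𝕂 : Type} [RCLike 𝕂] (N : IdealFun.{u} 𝕂) : Prop :=
  ∀ (X Y : Ban.{u} 𝕂) (S T : Op X Y), N X Y (S + T) ≤ N X Y S + N X Y T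

/-- `N` is an ideal norm (in the sense of Pietsch): on the operators with finite value it is a
norm, it satisfies `N(R T S) ≤ ‖R‖ N(T) ‖S‖`, and it is normalised by `N(x' ⊗ y) = ‖x'‖ ‖y‖`
on operators of rank one. -/
structure IsIdealNorm {𝕂 : Type} [RCLike 𝕂] (N : IdealFun.{u} 𝕂) : Prop where
  definite : IsDefinite N
  homogeneous : IsHomogeneous N
  subadditive : IsSubadditive N
  comp_le : ∀ (X₀ X Y Y₀ : Ban.{u} 𝕂) (R : Op Y Y₀) (T : Op X Y) (S : Op X₀ X),
    N X₀ Y₀ (mul R (mul T S)) ≤ opNorm R * N X Y T * opNorm S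
  rank_one : ∀ (X Y : Ban.{u} 𝕂) (f : X.dual.E) (y : Y.E),
    N X Y (rankOne f y) = ‖f‖ₑ * ‖y‖ₑ

/-- A quasi-Banach ideal with quasi-norm `α` is normed if some ideal norm is equivalent to its
quasi-norm (in particular it is finite on the same operators). -/
def IsNormed {𝕂 : Type} [RCLike 𝕂] (α : IdealFun.{u} 𝕂) : Prop :=
  ∃ N : IdealFun.{u} 𝕂, IsIdealNorm N ∧ ∃ c C : ℝ≥0∞, c ≠ ∞ ∧ C ≠ ∞ ∧
    ∀ (X Y : Ban.{u} 𝕂) (T : Op X Y), N X Y T ≤ C * α X Y T ∧ α X Y T ≤ c * N X Y T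

/-- `𝔄₀ = (𝔏₁ ∘ 𝔏_∞)^{**}` -/
noncomputable def idealA0 (𝕂 : Type) [RCLike 𝕂] : IdealFun.{u} 𝕂 :=
  adjointIdeal (adjointIdeal (idealProd (lpFactor 𝕂 1) (lpFactor 𝕂 ∞)))

/-! ## Proofs -/

section Lemmas

variable {𝕂 : Type} [RCLike 𝕂]

/-- limit argument in `[0,∞]` -/
lemma le_mul_of_forall_gt {x K v w : ℝ≥0∞} (hK : K ≠ ∞) (hv : v < ∞) (hw : w < ∞)
    (h : ∀ a b : ℝ≥0∞, v < a → w < b → x ≤ K * (a * b)) : x ≤ K * (v * w) := by
  have h1 : ∀ n : ℕ, x ≤ K * ((v + (n + 1 : ℝ≥0∞)⁻¹) * (w + (n + 1 : ℝ≥0∞)⁻¹)) := by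
    intro n
    have hpos : (0 : ℝ≥0∞) < ((n : ℝ≥0∞) + 1)⁻¹ := by
      rw [ENNReal.inv_pos]
      exact ENNReal.add_ne_top.mpr ⟨ENNReal.natCast_ne_top n, ENNReal.one_ne_top⟩
    exact h _ _ (ENNReal.lt_add_right hv.ne hpos.ne') (ENNReal.lt_add_right hw.ne hpos.ne')
  have h0 : Filter.Tendsto (fun n : ℕ => ((n : ℝ≥0∞) + 1)⁻¹) Filter.atTop (nhds 0) := by
    have := (Filter.tendsto_add_atTop_iff_nat 1).mpr ENNReal.tendsto_inv_nat_nhds_zero
    simpa using this
  have h2 : Filter.Tendsto (fun n : ℕ =>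
      K * ((v + (n + 1 : ℝ≥0∞)⁻¹) * (w + (n + 1 : ℝ≥0∞)⁻¹))) Filter.atTop
      (nhds (K * ((v + 0) * (w + 0)))) := by
    refine ENNReal.Tendsto.const_mul ?_ (Or.inr hK)
    refine ENNReal.Tendsto.mul (tendsto_const_nhds.add h0) (Or.inr ?_)
      (tendsto_const_nhds.add h0) (Or.inr ?_)
    · simpa using hw.ne
    · simpa using hv.ne
  rw [add_zero, add_zero] at h2
  exact ge_of_tendsto' h2 h1

/-- Grothendieck's inequality in operator form: `𝔏₂ ⊆ (𝔏₁ ∘ 𝔏_∞)^*`. -/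
lemma adjoint_le_of_factor {X Y : Ban.{u} 𝕂} {H : Type u}
    [NormedAddCommGroup H] [InnerProductSpace 𝕂 H] (d : H →L[𝕂] Y.E) (c : X.E →L[𝕂] H) :
    adjointIdeal (idealProd (lpFactor 𝕂 1) (lpFactor 𝕂 ∞)) X Y (d.comp c)
      ≤ 128 * (‖d‖ₑ * ‖c‖ₑ) := by
  unfold adjointIdeal
  refine iSup_le fun M => iSup_le fun L => iSup_le fun S => iSup_le fun hS => ?_
  -- the trace is bounded by a multiple of the quasi-norm of `S`
  set x : ℝ≥0∞ := absTrace (mul L.quot (mul (d.comp c : Op X Y) (mul M.incl S))) with hx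
  set K : ℝ≥0∞ := 128 * (‖d‖ₑ * ‖c‖ₑ) with hK
  have hKtop : K ≠ ∞ := by
    rw [hK]
    exact ENNReal.mul_ne_top (by norm_num) (ENNReal.mul_ne_top enorm_ne_top enorm_ne_top)
  have hkey : ∀ (Z : Ban.{u} 𝕂) (A : Op Z M.space) (B : Op L.space Z) (_ : S = mul A B)
      (_ : lpFactor 𝕂 1 Z M.space A < ∞) (_ : lpFactor 𝕂 ∞ L.space Z B < ∞),
      x ≤ K * (lpFactor 𝕂 1 Z M.space A * lpFactor 𝕂 ∞ L.space Z B) := by
    intro Z A B hSAB hA hB
    refine le_mul_of_forall_gt hKtop hA hB fun a b ha hb => ?_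
    simp only [lpFactor, iInf_lt_iff] at ha hb
    obtain ⟨Ω₁, m₁, ν, S₁, R₁, h₁, hlt₁⟩ := ha
    obtain ⟨Ω₂, m₂, μ, S₂, R₂, h₂, hlt₂⟩ := hb
    have hL1 : ‖(L.L.mkQL : Y.E →L[𝕂] Y.E ⧸ L.L)‖ ≤ 1 := by
      refine ContinuousLinearMap.opNorm_le_bound _ zero_le_one fun y => ?_
      rw [one_mul]
      exact Submodule.Quotient.norm_mk_le L.L y
    have hM1 : ‖M.M.subtypeL‖ ≤ 1 := Submodule.norm_subtypeL_le M.M
    have hfinL : FiniteDimensional 𝕂 L.space.E := L.fin
    have hfinM : FiniteDimensional 𝕂 M.space.E := M.fin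
    have hmain := Pool.Agent.Helper36.TraceBound.trace_bound (𝕂 := 𝕂)
      (F := L.space.E) (M := M.space.E) (Z := Z.E) (H := H)
      (c.comp M.M.subtypeL) (L.L.mkQL.comp d) B A μ ν S₂ R₂ h₂ S₁ R₁ h₁
    have heq : x = ‖LinearMap.trace 𝕂 L.space.E
        (((L.L.mkQL.comp d).comp (c.comp M.M.subtypeL)).comp (A.comp B)).toLinearMap‖ₑ := by
      rw [hx, hSAB]; rfl
    have hcM : ‖c.comp M.M.subtypeL‖ ≤ ‖c‖ := by
      refine (ContinuousLinearMap.opNorm_comp_le _ _).trans ?_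
      exact mul_le_of_le_one_right (norm_nonneg _) hM1
    have hdL : ‖L.L.mkQL.comp d‖ ≤ ‖d‖ := by
      refine (ContinuousLinearMap.opNorm_comp_le _ _).trans ?_
      exact mul_le_of_le_one_left (norm_nonneg _) hL1
    have hreal : ‖LinearMap.trace 𝕂 L.space.E
        (((L.L.mkQL.comp d).comp (c.comp M.M.subtypeL)).comp (A.comp B)).toLinearMap‖
        ≤ 128 * (‖d‖ * ‖c‖) * ((‖R₁‖ * ‖S₁‖) * (‖R₂‖ * ‖S₂‖)) := by
      refine hmain.trans ?_
      calc 128 * ((‖R₂‖ * ‖S₁‖) * ((‖S₂‖ * ‖L.L.mkQL.comp d‖) * (‖R₁‖ * ‖c.comp M.M.subtypeL‖)))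
          ≤ 128 * ((‖R₂‖ * ‖S₁‖) * ((‖S₂‖ * ‖d‖) * (‖R₁‖ * ‖c‖))) := by gcongr
        _ = _ := by ring
    have henn : x ≤ 128 * (‖d‖ₑ * ‖c‖ₑ) * ((‖R₁‖ₑ * ‖S₁‖ₑ) * (‖R₂‖ₑ * ‖S₂‖ₑ)) := by
      have h128 : (128 : ℝ≥0∞) = ENNReal.ofReal 128 := by norm_num
      rw [h128, heq]
      simp only [← ofReal_norm]
      rw [← ENNReal.ofReal_mul (norm_nonneg _), ← ENNReal.ofReal_mul (norm_nonneg _),
        ← ENNReal.ofReal_mul (norm_nonneg _), ← ENNReal.ofReal_mul (by positivity),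
        ← ENNReal.ofReal_mul (by positivity), ← ENNReal.ofReal_mul (by positivity)]
      exact ENNReal.ofReal_le_ofReal hreal
    refine henn.trans ?_
    rw [hK]
    simp only [opNorm] at hlt₁ hlt₂
    gcongr
  -- `S` has quasi-norm at most one
  have hfin : ∀ δ : ℝ≥0∞, 0 < δ → x ≤ K * (1 + δ) := by
    intro δ hδ
    have hS' : idealProd (lpFactor 𝕂 1) (lpFactor 𝕂 ∞) L.space M.space S < 1 + δ :=
      lt_of_le_of_lt hS (ENNReal.lt_add_right ENNReal.one_ne_top hδ.ne')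
    simp only [idealProd, iInf_lt_iff] at hS'
    obtain ⟨Z, A, B, hSAB, hA, hB, hlt⟩ := hS'
    refine (hkey Z A B hSAB hA hB).trans ?_
    gcongr
  have := le_mul_of_forall_gt (x := x) (K := K) (v := 1) (w := 1) hKtop ENNReal.one_lt_top
    ENNReal.one_lt_top (fun a b ha hb => ?_)
  · simpa using this
  · have h1 := hfin (a - 1) (tsub_pos_of_lt ha)
    rw [add_tsub_cancel_of_le ha.le] at h1
    refine h1.trans ?_
    gcongr
    exact le_mul_of_one_le_right (by positivity) hb.le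

/-- norm of the map induced on the quotient by the trivial subspace -/
lemma norm_liftQL_bot_le {E H : Type u} [NormedAddCommGroup E] [NormedSpace 𝕂 E]
    [NormedAddCommGroup H] [NormedSpace 𝕂 H]
    (_ : IsClosed ((⊥ : Submodule 𝕂 E) : Set E)) (S : E →L[𝕂] H) :
    ‖(⊥ : Submodule 𝕂 E).liftQL S bot_le‖ ≤ ‖S‖ := by
  refine ContinuousLinearMap.opNorm_le_bound _ (norm_nonneg _) fun y => ?_
  refine le_of_forall_pos_le_add fun ε hε => ?_
  obtain ⟨m, hm, hlt⟩ := Submodule.Quotient.norm_mk_lt y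
    (show (0 : ℝ) < ε / (‖S‖ + 1) by positivity)
  have h1 : (⊥ : Submodule 𝕂 E).liftQL S bot_le y = S m := by
    rw [← hm]; rfl
  rw [h1]
  refine (S.le_opNorm m).trans ?_
  have h2 : ‖S‖ * (ε / (‖S‖ + 1)) ≤ ε := by
    rw [mul_div_assoc', div_le_iff₀ (by positivity)]
    nlinarith [norm_nonneg S]
  nlinarith [norm_nonneg S]

/-- If `T` is multiplication by `lam` on a subspace `W`, then `|lam| dim W` is at most `128` times
the quasi-norm of `T` in `𝔄₀ ∘ 𝔏₂`. -/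
lemma lower_bound {E : Ban.{u} 𝕂}
    [FiniteDimensional 𝕂 E.E] (T : Op E E) (W : Submodule 𝕂 E.E) (lam : 𝕂) (hlam : lam ≠ 0)
    (hW : ∀ x ∈ W, T x = lam • x) :
    ‖lam‖ₑ * (Module.finrank 𝕂 W : ℝ≥0∞)
      ≤ 128 * idealProd (idealA0 𝕂) (hilbertFactor 𝕂) E E T := by
  by_cases hW0 : Module.finrank 𝕂 W = 0
  · rw [hW0]; simp
  -- for every factorisation
  have hkey : ∀ (Z : Ban.{u} 𝕂) (A : Op Z E) (B : Op E Z) (_ : T = A.comp B)
      (_ : idealA0 𝕂 Z E A < ∞) (H : Type u) (_ : NormedAddCommGroup H)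
      (_ : InnerProductSpace 𝕂 H) (_ : CompleteSpace H) (S : E.E →L[𝕂] H) (R : H →L[𝕂] Z.E)
      (_ : B = R.comp S),
      ‖lam‖ₑ * (Module.finrank 𝕂 W : ℝ≥0∞) ≤ 128 * (idealA0 𝕂 Z E A * (‖R‖ₑ * ‖S‖ₑ)) := by
    intro Z A B hT hA H j1 j2 j3 S R hB
    have hTx : ∀ x, T x = A (R (S x)) := by
      intro x; rw [hT, hB]; rfl
    -- the image of `W` in the Hilbert space
    let Hp : Submodule 𝕂 H := W.map S.toLinearMap
    have hHpfin : FiniteDimensional 𝕂 Hp := inferInstance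
    have hSinj : ∀ x ∈ W, S x = 0 → x = 0 := by
      intro x hx hSx
      have h1 := hW x hx
      rw [hTx, hSx, map_zero, map_zero] at h1
      have h2 : lam • x = 0 := h1.symm
      rcases smul_eq_zero.mp h2 with h | h
      · exact absurd h hlam
      · exact h
    have hfr : Module.finrank 𝕂 Hp = Module.finrank 𝕂 W := by
      have h1 : Hp = LinearMap.range (S.toLinearMap.domRestrict W) := by
        ext y
        simp [Hp]
      rw [h1]
      apply LinearMap.finrank_range_of_inj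
      rw [← LinearMap.ker_eq_bot, LinearMap.ker_eq_bot']
      intro x hx
      have := hSinj x.1 x.2 hx
      exact Subtype.ext this
    let P : H →L[𝕂] Hp := Hp.orthogonalProjectionOnto
    have hPHp : ∀ h : Hp, P (h : H) = h := fun h =>
      Submodule.orthogonalProjectionOnto_mem_subspace_eq_self h
    -- the finite dimensional subspace of `Z`
    let M : Submodule 𝕂 Z.E := Hp.map R.toLinearMap
    have hMfin : FiniteDimensional 𝕂 M := inferInstance
    have hMc : CompleteSpace M := FiniteDimensional.complete 𝕂 M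
    let MM : FinSub Z := { M := M, fin := hMfin }
    let RP : H →L[𝕂] M := (R.comp (Hp.subtypeL.comp P)).codRestrict M (fun h =>
      Submodule.mem_map.mpr ⟨(P h : H), (P h).2, rfl⟩)
    have hRP : ‖RP‖ ≤ ‖R‖ := by
      refine ContinuousLinearMap.opNorm_le_bound _ (norm_nonneg _) fun h => ?_
      have h1 : ‖RP h‖ = ‖R (P h : H)‖ := rfl
      rw [h1]
      refine (R.le_opNorm _).trans ?_
      gcongr
      exact Hp.norm_orthogonalProjectionOnto_apply_le h
    have hbot : IsClosed ((⊥ : Submodule 𝕂 E.E) : Set E.E) :=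
      Submodule.closed_of_finiteDimensional _
    let LL : CofinSub E := { L := ⊥, closed := hbot, fin := inferInstance }
    let c : (E.E ⧸ (⊥ : Submodule 𝕂 E.E)) →L[𝕂] H := (⊥ : Submodule 𝕂 E.E).liftQL S bot_le
    have hc : ‖c‖ ≤ ‖S‖ := norm_liftQL_bot_le hbot S
    have hR0 : R ≠ 0 := by
      rintro rfl
      apply hW0
      rw [Submodule.finrank_eq_zero (R := 𝕂) (M := E.E), Submodule.eq_bot_iff]
      intro x hx
      have h1 := hW x hx
      rw [hTx] at h1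
      simp only [_root_.zero_apply, map_zero] at h1
      rcases smul_eq_zero.mp h1.symm with h | h
      · exact absurd h hlam
      · exact h
    have hS0 : S ≠ 0 := by
      rintro rfl
      apply hW0
      rw [Submodule.finrank_eq_zero (R := 𝕂) (M := E.E), Submodule.eq_bot_iff]
      intro x hx
      exact hSinj x hx rfl
    have hRpos : 0 < ‖R‖ := norm_pos_iff.mpr hR0
    have hSpos : 0 < ‖S‖ := norm_pos_iff.mpr hS0
    -- scaling factor
    set q : ℝ := (128 * (‖R‖ * ‖S‖))⁻¹ with hq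
    have hqpos : 0 < q := by positivity
    let d : H →L[𝕂] M := ((q : ℝ) : 𝕂) • RP
    have hd : ‖d‖ ≤ q * ‖R‖ := by
      have : ‖d‖ = q * ‖RP‖ := by
        change ‖((q : ℝ) : 𝕂) • RP‖ = _
        rw [norm_smul, RCLike.norm_ofReal, abs_of_pos hqpos]
      rw [this]
      gcongr
    have hle1 : adjointIdeal (idealProd (lpFactor 𝕂 1) (lpFactor 𝕂 ∞))
        LL.space MM.space (d.comp c) ≤ 1 := by
      refine (adjoint_le_of_factor (X := LL.space) (Y := MM.space) d c).trans ?_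
      have h1 : 128 * (‖d‖ * ‖c‖) ≤ 1 := by
        calc 128 * (‖d‖ * ‖c‖) ≤ 128 * ((q * ‖R‖) * ‖S‖) := by gcongr
          _ = q * (128 * (‖R‖ * ‖S‖)) := by ring
          _ = 1 := by rw [hq]; exact inv_mul_cancel₀ (by positivity)
      have h128 : (128 : ℝ≥0∞) = ENNReal.ofReal 128 := by norm_num
      rw [h128, ← ofReal_norm, ← ofReal_norm, ← ENNReal.ofReal_mul (norm_nonneg _),
        ← ENNReal.ofReal_mul (by norm_num)]
      exact ENNReal.ofReal_le_one.mpr h1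
    -- the trace
    have htr : LinearMap.trace 𝕂 (E.E ⧸ (⊥ : Submodule 𝕂 E.E))
        ((⊥ : Submodule 𝕂 E.E).mkQL.comp (A.comp (M.subtypeL.comp (d.comp c)))).toLinearMap
        = ((q : ℝ) : 𝕂) * (lam * (Module.finrank 𝕂 W : 𝕂)) := by
      let a' : Hp →ₗ[𝕂] (E.E ⧸ (⊥ : Submodule 𝕂 E.E)) :=
        ((q : ℝ) : 𝕂) • ((⊥ : Submodule 𝕂 E.E).mkQ ∘ₗ A.toLinearMap ∘ₗ R.toLinearMap ∘ₗ Hp.subtype)
      let b' : (E.E ⧸ (⊥ : Submodule 𝕂 E.E)) →ₗ[𝕂] Hp := P.toLinearMap ∘ₗ c.toLinearMap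
      have e1 : ((⊥ : Submodule 𝕂 E.E).mkQL.comp
          (A.comp (M.subtypeL.comp (d.comp c)))).toLinearMap = a' ∘ₗ b' := by
        ext y
        change (⊥ : Submodule 𝕂 E.E).mkQ (A (((q : ℝ) : 𝕂) • (RP (c _) : Z.E)))
          = ((q : ℝ) : 𝕂) • (⊥ : Submodule 𝕂 E.E).mkQ (A (R ((P (c _) : Hp) : H)))
        rw [map_smul, map_smul]
        rfl
      have e2 : b' ∘ₗ a' = (((q : ℝ) : 𝕂) * lam) • LinearMap.id := by
        ext h
        obtain ⟨h, hh⟩ := h
        obtain ⟨x, hx, rfl⟩ := Submodule.mem_map.mp hh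
        have h1 : b' (a' ⟨S.toLinearMap x, hh⟩) = ((q : ℝ) : 𝕂) • P (S (A (R (S x)))) := by
          change P (c (((q : ℝ) : 𝕂) • (⊥ : Submodule 𝕂 E.E).mkQ (A (R (S x))))) = _
          rw [map_smul, map_smul]
          rfl
        have h2 : S (A (R (S x))) = lam • S x := by
          rw [← hTx, hW x hx, map_smul]
        have h3 : P (S x) = ⟨S.toLinearMap x, hh⟩ := hPHp ⟨S.toLinearMap x, hh⟩
        simp only [LinearMap.comp_apply, LinearMap.smul_apply, LinearMap.id_apply]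
        rw [h1, h2, map_smul, h3, smul_smul]
      rw [e1, LinearMap.trace_comp_comm', e2, map_smul, LinearMap.trace_id, hfr, smul_eq_mul,
        mul_assoc]
    -- the definition of the adjoint
    have hsup : ‖LinearMap.trace 𝕂 (E.E ⧸ (⊥ : Submodule 𝕂 E.E))
        ((⊥ : Submodule 𝕂 E.E).mkQL.comp (A.comp (M.subtypeL.comp (d.comp c)))).toLinearMap‖ₑ
        ≤ idealA0 𝕂 Z E A := by
      unfold idealA0
      conv_rhs => unfold adjointIdeal
      exact le_iSup_of_le MM (le_iSup_of_le LL (le_iSup_of_le (d.comp c)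
        (le_iSup_of_le hle1 le_rfl)))
    rw [htr] at hsup
    have hn : ‖((q : ℝ) : 𝕂) * (lam * (Module.finrank 𝕂 W : 𝕂))‖ₑ
        = ENNReal.ofReal q * (‖lam‖ₑ * (Module.finrank 𝕂 W : ℝ≥0∞)) := by
      rw [← ofReal_norm, norm_mul, norm_mul, RCLike.norm_ofReal, abs_of_pos hqpos,
        RCLike.norm_natCast, ENNReal.ofReal_mul hqpos.le, ENNReal.ofReal_mul (norm_nonneg _),
        ofReal_norm, ENNReal.ofReal_natCast]
    rw [hn] at hsup
    -- multiply by `128 ‖R‖ ‖S‖`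
    have hq' : ENNReal.ofReal q * (128 * (‖R‖ₑ * ‖S‖ₑ)) = 1 := by
      have h128 : (128 : ℝ≥0∞) = ENNReal.ofReal 128 := by norm_num
      rw [h128, ← ofReal_norm, ← ofReal_norm, ← ENNReal.ofReal_mul (norm_nonneg _),
        ← ENNReal.ofReal_mul (by norm_num), ← ENNReal.ofReal_mul hqpos.le, hq,
        inv_mul_cancel₀ (by positivity), ENNReal.ofReal_one]
    calc ‖lam‖ₑ * (Module.finrank 𝕂 W : ℝ≥0∞)
        = (ENNReal.ofReal q * (128 * (‖R‖ₑ * ‖S‖ₑ)))
          * (‖lam‖ₑ * (Module.finrank 𝕂 W : ℝ≥0∞)) := by rw [hq', one_mul]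
      _ = (128 * (‖R‖ₑ * ‖S‖ₑ)) *
          (ENNReal.ofReal q * (‖lam‖ₑ * (Module.finrank 𝕂 W : ℝ≥0∞))) := by ring
      _ ≤ (128 * (‖R‖ₑ * ‖S‖ₑ)) * idealA0 𝕂 Z E A := by gcongr
      _ = _ := by ring
  -- infimum over the factorisations
  set x : ℝ≥0∞ := ‖lam‖ₑ * (Module.finrank 𝕂 W : ℝ≥0∞) with hx
  by_cases htop : idealProd (idealA0 𝕂) (hilbertFactor 𝕂) E E T = ∞
  · rw [htop, ENNReal.mul_top (by norm_num)]; exact le_top
  have hkey2 : ∀ w : ℝ≥0∞, idealProd (idealA0 𝕂) (hilbertFactor 𝕂) E E T < w →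
      x ≤ 128 * w := by
    intro w hw
    simp only [idealProd, iInf_lt_iff] at hw
    obtain ⟨Z, A, B, hT, hA, hB, hlt⟩ := hw
    have h1 : x ≤ 128 * (idealA0 𝕂 Z E A * hilbertFactor 𝕂 E Z B) := by
      refine le_mul_of_forall_gt (by norm_num) hA hB fun a b ha hb => ?_
      simp only [hilbertFactor, iInf_lt_iff] at hb
      obtain ⟨H, S, R, hBRS, hlt2⟩ := hb
      refine (hkey Z A B hT hA H.E H.grp H.inn H.cpl S R hBRS).trans ?_
      gcongr
      exact hlt2.le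
    refine h1.trans ?_
    gcongr
  have h3 := le_mul_of_forall_gt (x := x) (K := 128)
    (v := idealProd (idealA0 𝕂) (hilbertFactor 𝕂) E E T) (w := 1) (by norm_num)
    (lt_top_iff_ne_top.mpr htop) ENNReal.one_lt_top (fun a b ha hb => ?_)
  · simpa using h3
  · refine (hkey2 a ha).trans ?_
    gcongr
    exact le_mul_of_one_le_right (by positivity) hb.le

/-- Sylvester-Hadamard matrices. -/
lemma exists_hadamard (k : ℕ) : ∃ (ι : Type u) (_ : Fintype ι) (_ : DecidableEq ι)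
    (A : ι → ι → ℝ), Fintype.card ι = 2 ^ k ∧ (∀ i j, |A i j| ≤ 1) ∧
      ∀ i l, ∑ j, A i j * A j l = if i = l then (2 : ℝ) ^ k else 0 := by
  induction k with
  | zero =>
    refine ⟨PUnit, inferInstance, inferInstance, fun _ _ => 1, by simp, by simp, ?_⟩
    intro i l
    simp
  | succ k ih =>
    obtain ⟨ι, hι, hdec, A, hcard, hA, hAA⟩ := ih
    refine ⟨ι × ULift.{u} Bool, inferInstance, inferInstance,
      fun p q => A p.1 q.1 * (if p.2.down && q.2.down then -1 else 1), ?_, ?_, ?_⟩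
    · rw [Fintype.card_prod, hcard]
      simp [pow_succ]
    · intro i j
      rw [abs_mul]
      have h1 : |(if i.2.down && j.2.down then (-1 : ℝ) else 1)| = 1 := by
        split_ifs <;> simp
      rw [h1, mul_one]
      exact hA _ _
    · rintro ⟨i, ⟨bi⟩⟩ ⟨l, ⟨bl⟩⟩
      rw [Fintype.sum_prod_type]
      have h1 : ∀ j : ι, ∑ y : ULift.{u} Bool,
          A i j * (if bi && y.down then (-1 : ℝ) else 1) *
            (A j l * (if y.down && bl then (-1 : ℝ) else 1))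
          = (A i j * A j l) * (1 + (if bi then -1 else 1) * (if bl then -1 else 1)) := by
        intro j
        have h2 : ∑ y : ULift.{u} Bool,
          A i j * (if bi && y.down then (-1 : ℝ) else 1) *
            (A j l * (if y.down && bl then (-1 : ℝ) else 1))
            = ∑ y : Bool, A i j * (if bi && y then (-1 : ℝ) else 1) *
            (A j l * (if y && bl then (-1 : ℝ) else 1)) :=
          Fintype.sum_equiv Equiv.ulift _ _ (fun y => rfl)
        rw [h2, Fintype.sum_bool]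
        cases bi <;> cases bl <;> simp <;> ring
      simp only
      rw [Finset.sum_congr rfl (fun j _ => h1 j), ← Finset.sum_mul, hAA]
      by_cases hil : i = l
      · subst hil
        cases bi <;> cases bl <;> simp [pow_succ] <;> ring
      · have : ¬ ((i, (⟨bi⟩ : ULift.{u} Bool)) = (l, ⟨bl⟩)) := by
          intro h; exact hil (Prod.ext_iff.mp h).1
        rw [if_neg hil, if_neg this, zero_mul]

/-- one of the two eigenspaces of a scaled involution has at least half the dimension -/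
lemma exists_eigenspace {E : Type u} [NormedAddCommGroup E] [NormedSpace 𝕂 E]
    [FiniteDimensional 𝕂 E] (T : E →L[𝕂] E) (m : 𝕂) (hT : ∀ x, T (T x) = (m * m) • x) :
    ∃ (W : Submodule 𝕂 E) (lam : 𝕂), (lam = m ∨ lam = -m) ∧ (∀ x ∈ W, T x = lam • x) ∧
      Module.finrank 𝕂 E ≤ 2 * Module.finrank 𝕂 W := by
  let Tp : E →ₗ[𝕂] E := T.toLinearMap + m • LinearMap.id
  let Tm : E →ₗ[𝕂] E := T.toLinearMap - m • LinearMap.id
  have hle : LinearMap.range Tp ≤ LinearMap.ker Tm := by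
    rintro _ ⟨x, rfl⟩
    rw [LinearMap.mem_ker]
    change T (T x + m • x) - m • (T x + m • x) = 0
    rw [map_add, hT, map_smul, smul_add, smul_smul]
    abel
  have h1 := LinearMap.finrank_range_add_finrank_ker Tp
  have h2 := Submodule.finrank_mono hle
  have hkp : ∀ x ∈ LinearMap.ker Tp, T x = (-m) • x := by
    intro x hx
    rw [LinearMap.mem_ker] at hx
    change T x + m • x = 0 at hx
    rw [neg_smul]
    exact eq_neg_of_add_eq_zero_left hx
  have hkm : ∀ x ∈ LinearMap.ker Tm, T x = m • x := by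
    intro x hx
    rw [LinearMap.mem_ker] at hx
    change T x - m • x = 0 at hx
    exact sub_eq_zero.mp hx
  by_cases hc : Module.finrank 𝕂 E ≤ 2 * Module.finrank 𝕂 (LinearMap.ker Tp)
  · exact ⟨LinearMap.ker Tp, -m, Or.inr rfl, hkp, hc⟩
  · refine ⟨LinearMap.ker Tm, m, Or.inl rfl, hkm, ?_⟩
    omega

/-- an ideal norm is subadditive on finite sums -/
lemma idealNorm_sum_le {N : IdealFun.{u} 𝕂} (hN : IsIdealNorm N) {X Y : Ban.{u} 𝕂}
    {ι : Type*} (s : Finset ι)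
    (f : ι → Op X Y) : N X Y (∑ i ∈ s, f i) ≤ ∑ i ∈ s, N X Y (f i) := by
  classical
  induction s using Finset.induction_on with
  | empty =>
    rw [Finset.sum_empty, Finset.sum_empty, (hN.definite X Y 0).mpr rfl]
  | insert a s ha ih =>
    rw [Finset.sum_insert ha, Finset.sum_insert ha]
    exact (hN.subadditive X Y _ _).trans (by gcongr)

end Lemmas

/-- **Negative answer to Q1.** For `𝕂 = ℝ` and `𝕂 = ℂ`, the product quasi-Banach ideal
`(𝔏₁ ∘ 𝔏_∞)^{**} ∘ 𝔏₂` is not normed: its quasi-norm is not equivalent to any ideal norm. -/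
theorem result (𝕂 : Type) [RCLike 𝕂] :
    ¬ IsNormed.{u} (idealProd (adjointIdeal (adjointIdeal (idealProd (lpFactor 𝕂 1)
      (lpFactor 𝕂 ∞)))) (hilbertFactor 𝕂)) := by
  rintro ⟨N, hN, c, C, hc, hC, heq⟩
  -- the key inequality `√n / 2 ≤ 128 c`
  have hkey : ∀ k : ℕ, (2 : ℝ) ^ k / 2 ≤ 128 * c.toReal := by
    intro k
    obtain ⟨ι, hι, hdec, A, hcard, hA, hAA⟩ := exists_hadamard.{u} (2 * k)
    set n : ℝ := (2 : ℝ) ^ (2 * k) with hn
    let V : Ban.{u} 𝕂 := ⟨ι → 𝕂⟩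
    have hnpos : 0 < n := by positivity
    have hcardn : (Fintype.card ι : ℝ) = n := by rw [hcard, hn]; push_cast; ring
    let v : ι → (ι → 𝕂) := fun j i => ((A i j / n : ℝ) : 𝕂)
    let T : (ι → 𝕂) →L[𝕂] (ι → 𝕂) :=
      ∑ j, (ContinuousLinearMap.proj (R := 𝕂) (φ := fun _ : ι => 𝕂) j).smulRight (v j)
    have hTapp : ∀ x i, T x i = ∑ j, x j * ((A i j / n : ℝ) : 𝕂) := by
      intro x i
      simp [T, v]
    -- nuclear norm at most one
    have hv : ∀ j, ‖v j‖ ≤ 1 / n := by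
      intro j
      rw [pi_norm_le_iff_of_nonneg (by positivity)]
      intro i
      simp only [v]
      rw [RCLike.norm_ofReal, abs_div, abs_of_pos hnpos]
      gcongr
      exact hA i j
    have hproj : ∀ j, ‖(ContinuousLinearMap.proj (R := 𝕂) (φ := fun _ : ι => 𝕂) j)‖ ≤ 1 := by
      intro j
      refine ContinuousLinearMap.opNorm_le_bound _ zero_le_one fun x => ?_
      rw [one_mul]
      exact norm_le_pi_norm x j
    have hrank : ∀ j, N V V
        ((ContinuousLinearMap.proj (R := 𝕂) (φ := fun _ : ι => 𝕂) j).smulRight (v j))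
        = ‖(ContinuousLinearMap.proj (R := 𝕂) (φ := fun _ : ι => 𝕂) j)‖ₑ * ‖v j‖ₑ := fun j =>
      hN.rank_one V V (ContinuousLinearMap.proj (R := 𝕂) (φ := fun _ : ι => 𝕂) j) (v j)
    have hNT : N V V T ≤ 1 := by
      refine (idealNorm_sum_le hN _ _).trans ?_
      have h1 : ∀ j ∈ (Finset.univ : Finset ι), N V V
          ((ContinuousLinearMap.proj (R := 𝕂) (φ := fun _ : ι => 𝕂) j).smulRight (v j))
          ≤ ENNReal.ofReal (1 / n) := by
        intro j _
        rw [hrank j, ← ofReal_norm, ← ofReal_norm, ← ENNReal.ofReal_mul (norm_nonneg _)]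
        refine ENNReal.ofReal_le_ofReal ?_
        calc ‖(ContinuousLinearMap.proj (R := 𝕂) (φ := fun _ : ι => 𝕂) j)‖ * ‖v j‖
            ≤ 1 * (1 / n) := mul_le_mul (hproj j) (hv j) (norm_nonneg _) zero_le_one
          _ = 1 / n := one_mul _
      refine (Finset.sum_le_sum h1).trans ?_
      rw [Finset.sum_const, Finset.card_univ, nsmul_eq_mul, ← ENNReal.ofReal_natCast,
        ← ENNReal.ofReal_mul (Nat.cast_nonneg _), hcardn, mul_one_div_cancel hnpos.ne',
        ENNReal.ofReal_one]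
    have hα : idealProd (idealA0 𝕂) (hilbertFactor 𝕂) V V T ≤ c := by
      refine ((heq V V T).2).trans ?_
      calc c * N V V T ≤ c * 1 := by gcongr
        _ = c := mul_one c
    -- `T² = n⁻¹`
    set m : 𝕂 := ((((2 : ℝ) ^ k)⁻¹ : ℝ) : 𝕂) with hm
    have hm2 : m * m = ((n⁻¹ : ℝ) : 𝕂) := by
      rw [hm, hn, ← RCLike.ofReal_mul]
      congr 1
      rw [pow_mul', sq, mul_inv]
    have hTT : ∀ x, T (T x) = (m * m) • x := by
      intro x
      ext i
      rw [hTapp, hm2, Pi.smul_apply, smul_eq_mul]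
      have h1 : ∀ j, T x j * ((A i j / n : ℝ) : 𝕂)
          = ∑ l, x l * ((A i j * A j l / (n * n) : ℝ) : 𝕂) := by
        intro j
        rw [hTapp, Finset.sum_mul]
        refine Finset.sum_congr rfl fun l _ => ?_
        push_cast
        field_simp
      rw [Finset.sum_congr rfl (fun j _ => h1 j), Finset.sum_comm]
      have h2 : ∀ l, ∑ j, x l * ((A i j * A j l / (n * n) : ℝ) : 𝕂)
          = x l * (((if i = l then n else 0) / (n * n) : ℝ) : 𝕂) := by
        intro l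
        rw [← Finset.mul_sum, ← RCLike.ofReal_sum, ← Finset.sum_div, hAA]
      rw [Finset.sum_congr rfl (fun l _ => h2 l), Finset.sum_eq_single i]
      · rw [if_pos rfl, mul_comm]
        congr 2
        field_simp
      · intro l _ hl
        rw [if_neg (Ne.symm hl)]
        simp
      · intro h; exact absurd (Finset.mem_univ i) h
    obtain ⟨W, lam, hlam, hW, hdim⟩ := exists_eigenspace T m hTT
    have hlamn : ‖lam‖ = ((2 : ℝ) ^ k)⁻¹ := by
      have : ‖m‖ = ((2 : ℝ) ^ k)⁻¹ := by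
        rw [hm, RCLike.norm_ofReal, abs_of_pos (by positivity)]
      rcases hlam with h | h
      · rw [h, this]
      · rw [h, norm_neg, this]
    have hlam0 : lam ≠ 0 := by
      rw [← norm_pos_iff, hlamn]; positivity
    have hVfin : FiniteDimensional 𝕂 V.E := (inferInstance : FiniteDimensional 𝕂 (ι → 𝕂))
    have hlb := lower_bound (E := V) T W lam hlam0 hW
    have hlb2 : ‖lam‖ₑ * (Module.finrank 𝕂 W : ℝ≥0∞) ≤ 128 * c := by
      refine hlb.trans ?_
      gcongr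
    have hlb3 : ‖lam‖ * (Module.finrank 𝕂 W : ℝ) ≤ 128 * c.toReal := by
      have h1 : ‖lam‖ₑ * (Module.finrank 𝕂 W : ℝ≥0∞)
          = ENNReal.ofReal (‖lam‖ * (Module.finrank 𝕂 W : ℝ)) := by
        rw [ENNReal.ofReal_mul (norm_nonneg _), ofReal_norm, ENNReal.ofReal_natCast]
      have h2 : (128 : ℝ≥0∞) * c = ENNReal.ofReal (128 * c.toReal) := by
        rw [ENNReal.ofReal_mul (by norm_num), ENNReal.ofReal_toReal hc]
        norm_num
      rw [h1, h2] at hlb2
      exact (ENNReal.ofReal_le_ofReal_iff (by positivity)).mp hlb2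
    have hfr : Module.finrank 𝕂 (ι → 𝕂) = Fintype.card ι := Module.finrank_pi 𝕂
    have hdim2 : n / 2 ≤ (Module.finrank 𝕂 W : ℝ) := by
      rw [hfr] at hdim
      have : (Fintype.card ι : ℝ) ≤ 2 * (Module.finrank 𝕂 W : ℝ) := by exact_mod_cast hdim
      rw [hcardn] at this
      linarith
    refine le_trans ?_ hlb3
    rw [hlamn]
    calc (2 : ℝ) ^ k / 2 = ((2 : ℝ) ^ k)⁻¹ * (n / 2) := by
          rw [hn, pow_mul', sq]; field_simp
      _ ≤ ((2 : ℝ) ^ k)⁻¹ * (Module.finrank 𝕂 W : ℝ) := by gcongr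
  -- contradiction
  obtain ⟨k, hk⟩ := pow_unbounded_of_one_lt (2 * (128 * c.toReal)) (one_lt_two (α := ℝ))
  have := hkey k
  linarith

end Pool.Agent.Results.MP_46efc5_an.NotNormed
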